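import Mathlib

set_option autoImplicit false

namespace Pool.Agent.Results.MP_3b0c1c_an.Yes

open Set Filter Topology Real Metric

theorem pick {g : ℝ → ℝ} {r : ℝ} (r0 : 0 ≤ r) (hg : ContinuousOn g (Icc 0 r)) (h : 2 * π ≤ |g r - g 0|) :
    ∃ s ∈ Icc 0 r, 1 ≤ |cos (g s) - cos (g 0)| := by
  have a : ∀ y, ∃ s ∈ Icc 0 r, cos (g s) = cos y := fun y => by
    obtain ⟨s, p, q⟩ := intermediate_value_uIcc (uIcc_of_le r0 ▸ hg) (show toIcoMod two_pi_pos (min (g 0) (g r)) y ∈ _ by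
      have := toIcoMod_mem_Ico two_pi_pos (min (g 0) (g r)) y
      refine ⟨this.1, this.2.le.trans ?_⟩
      linarith [max_sub_min_eq_abs (g 0) (g r)])
    exact ⟨s, uIcc_of_le r0 ▸ p, by rw [q, toIcoMod, zsmul_eq_mul, cos_sub_int_mul_two_pi]⟩
  rcases le_total 0 (cos (g 0)) with h | h
  · exact (a π).imp fun s p => ⟨p.1, by rw [p.2, cos_pi, abs_sub_comm]; exact le_trans (by linarith) (le_abs_self _)⟩
  exact (a 0).imp fun s p => ⟨p.1, by rw [p.2, cos_zero]; exact le_trans (by linarith) (le_abs_self _)⟩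

theorem res {d : ℕ} (K : Set (EuclideanSpace ℝ (Fin d))) [CompactSpace K] (i : Fin d) (n : ℕ) :
    ∀ᶠ f : C(K, ℝ) in residual _, ∃ δ ∈ Ioo (0 : ℝ) (1 / (n + 1)), ∀ c : ℝ → K, ContinuousOn c (Icc 0 δ) →
      (∀ s ∈ Icc 0 δ, dist (c s) (c 0) ≤ n * δ) → δ / (n + 1) ≤ |(c δ).1 i - (c 0).1 i| →
      ∃ s ∈ Icc 0 δ, n * δ < |f (c s) - f (c 0)| := by
  refine mem_of_superset (residual_of_dense_open isOpen_interior (Metric.dense_iff.2 fun f ε e => ?_)) interior_subset
  obtain ⟨η, a, b⟩ := Metric.uniformContinuous_iff.1 (CompactSpace.uniformContinuous_of_continuous f.continuous) (ε / 8)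
    (by positivity)
  have j := (tendsto_id (x := 𝓝 (0 : ℝ))).const_mul (n : ℝ)
  obtain ⟨δ, ⟨p, q, r⟩, s⟩ := ((((j.eventually_lt_const (show n * 0 < η by simpa)).and ((j.eventually_lt_const
    (show n * 0 < ε / 8 by simpa)).and (eventually_lt_nhds (Nat.one_div_pos_of_nat (n := n))))).filter_mono
    nhdsWithin_le_nhds).and (eventually_mem_nhdsWithin (s := Ioi 0))).exists
  have s : 0 < δ := s
  let g : C(K, ℝ) := ⟨fun x => ε / 2 * cos (2 * π * (n + 1) / δ * x.1 i), by fun_prop⟩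
  refine ⟨f + g, ?_, mem_interior_iff_mem_nhds.2 (mem_of_superset (ball_mem_nhds _ (show 0 < ε / 8 by positivity))
    fun h t => ⟨δ, ⟨s, r⟩, fun c u v w => ?_⟩)⟩
  · rw [mem_ball, dist_self_add_left]
    refine ((g.norm_le (half_pos e).le).2 fun x => ?_).trans_lt (half_lt_self e)
    exact (abs_mul _ _).trans_le (by
      rw [abs_of_pos (half_pos e)]
      exact mul_le_of_le_one_right (half_pos e).le (abs_cos_le_one _))
  obtain ⟨x, y, z⟩ := pick (g := fun s => 2 * π * (n + 1) / δ * (c s).1 i) s.le (by fun_prop) (by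
    rw [← mul_sub, abs_mul, abs_of_pos (by positivity)]
    exact le_trans (by field_simp; rfl) (mul_le_mul_of_nonneg_left w (by positivity)))
  refine ⟨x, y, ?_⟩
  have k := fun x => abs_lt.1 ((h.dist_apply_le_dist x).trans_lt t)
  have := abs_lt.1 (b ((v x y).trans_lt p))
  have := k (c x)
  have := k (c 0)
  simp only [g, ContinuousMap.add_apply, ContinuousMap.coe_mk, id] at *
  rcases le_abs.1 z with z | z
  · exact lt_abs.2 (.inl (by nlinarith))
  exact lt_abs.2 (.inr (by nlinarith))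

theorem result (d : ℕ) (U : Set (EuclideanSpace ℝ (Fin d))) (hU : Bornology.IsBounded U) :
    ∃ G : Set C(closure U, ℝ), IsGδ G ∧ Dense G ∧ ∀ f ∈ G, ∀ (I : Set ℝ) (c : ℝ → EuclideanSpace ℝ (Fin d))
      (hc : ∀ t : I, c t ∈ U), I.OrdConnected → (interior I).Nonempty → ContDiffOn ℝ 1 c I →
      (∀ t ∈ I, ‖derivWithin c I t‖ = 1) → ∀ F : ℝ → ℝ, (∀ t : I, F t = f ⟨c t, subset_closure (hc t)⟩) →
        ∀ t ∈ I, ¬DifferentiableWithinAt ℝ F I t := by
  haveI := isCompact_iff_compactSpace.1 hU.isCompact_closure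
  obtain ⟨G, a, b, c⟩ := mem_residual.1 (eventually_countable_forall.2 fun i => eventually_countable_forall.2
    (res (closure U) i))
  refine ⟨G, b, c, fun f hf I c hc h1 h2 h3 h4 F e t ht hF => ?_⟩
  obtain ⟨s, hs, st⟩ : ∃ s ∈ I, s ≠ t := by
    by_contra! h
    simp [eq_singleton_iff_unique_mem.2 ⟨ht, h⟩] at h2
  have hl : HasDerivWithinAt (fun u : ℝ => t + u * (s - t)) (s - t) (Icc 0 1) 0 := by
    simpa using (((hasDerivAt_id 0).mul_const (s - t)).const_add t).hasDerivWithinAt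
  have mp : MapsTo (fun u : ℝ => t + u * (s - t)) (Icc 0 1) I := fun u hu => by
    simpa using h1.convex.add_smul_sub_mem ht hs hu
  have o : t = t + 0 * (s - t) := by simp
  have dc := (h3.differentiableOn one_ne_zero t ht).hasDerivWithinAt.scomp_of_eq 0 hl mp o
  obtain ⟨i, hi⟩ : ∃ i, ((s - t) • derivWithin c I t) i ≠ 0 := by
    by_contra! h
    exact smul_ne_zero (sub_ne_zero.2 st) (fun z => by simpa [z] using h4 t ht) (PiLp.ext h)
  generalize (s - t) • derivWithin c I t = v at dc hi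
  have m := abs_pos.2 hi
  obtain ⟨A, p⟩ := (DifferentiableWithinAt.comp (g := F) 0 (o ▸ hF) hl.differentiableWithinAt mp).isBigO_sub.bound
  obtain ⟨B, q⟩ := dc.differentiableWithinAt.isBigO_sub.bound
  obtain ⟨ε, x, y⟩ := Metric.mem_nhdsWithin_iff.1 (p.and (q.and (((EuclideanSpace.proj (𝕜 := ℝ) i).hasFDerivAt
    |>.comp_hasDerivWithinAt 0 dc).isLittleO.bound (half_pos m))))
  obtain ⟨n, z⟩ := exists_nat_gt (max (max A B) (max (1 / ε) (2 / |v i|)))
  simp only [max_lt_iff] at z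
  obtain ⟨δ, ⟨r, u⟩, w⟩ := a hf i n
  have l : δ ≤ 1 := u.le.trans (by simp [inv_le_one₀, n.cast_add_one_pos])
  have k := fun j (h : j ∈ Icc 0 δ) => y ⟨mem_ball_zero_iff.2 (((abs_of_nonneg h.1).trans_le h.2).trans_lt (u.trans
    ((one_div_lt n.cast_add_one_pos x).2 (by linarith [z.2.1])))), h.1, h.2.trans l⟩
  have g : ∀ j, j ∈ Icc 0 δ → projIcc 0 1 zero_le_one j = j := fun j h => by rw [projIcc_of_mem _ ⟨h.1, h.2.trans l⟩]
  have b : ∀ {C j : ℝ}, C < n → j ∈ Icc 0 δ → C * ‖j - 0‖ ≤ n * δ := fun h j => by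
    rw [sub_zero, Real.norm_of_nonneg j.1]
    exact (mul_le_mul_of_nonneg_right h.le j.1).trans (mul_le_mul_of_nonneg_left j.2 n.cast_nonneg)
  have g0 := g 0 ⟨le_rfl, r.le⟩
  obtain ⟨j, hj, h⟩ := w (fun u => ⟨_, subset_closure (hc ⟨_, mp (projIcc 0 1 zero_le_one u).2⟩)⟩)
    (Continuous.continuousOn (.subtype_mk (h3.continuousOn.comp_continuous (by fun_prop) fun u => mp (Subtype.prop _)) _))
    (fun j h => by simpa only [Subtype.dist_eq, g j h, g0, dist_eq_norm, Function.comp_apply] using ((k j h).2.1.trans (b z.1.2 h) :)) (by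
      have := (k δ ⟨r.le, le_rfl⟩).2.2
      simp only [Function.comp_apply, PiLp.proj_apply, sub_zero, smul_eq_mul, Real.norm_eq_abs, abs_of_pos r] at this
      simp only [g δ ⟨r.le, le_rfl⟩, g0]
      have tt := abs_sub_abs_le_abs_sub (δ * v i) (c (t + δ * (s - t)) i - c (t + 0 * (s - t)) i)
      rw [abs_sub_comm (δ * v i), abs_mul, abs_of_pos r] at tt
      have := (div_lt_iff₀ m).1 z.2.2
      rw [div_le_iff₀ n.cast_add_one_pos]
      nlinarith [abs_nonneg (c (t + δ * (s - t)) i - c (t + 0 * (s - t)) i)])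
  rw [← e, ← e] at h
  simp only [g j hj, g0] at h
  exact h.not_ge ((k j hj).1.trans (b z.1.1 hj))

end Pool.Agent.Results.MP_3b0c1c_an.Yes
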